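import Pool.Agent.Helper18.NC.Places
import Pool.Agent.Helper43.NB.Fibre
import Pool.Agent.Helper27.NC.Defs
import Pool.Agent.Helper27.NC.Word

/-!
# The words of the blocks of bits are nearly hidden (project NB+, X3)
-/

set_option autoImplicit false

namespace Pool.Agent.Helper18.NC

open Finset
open Pool.Agent.Helper27.NC (Hid bword)
open Pool.Agent.Helper43.NB (bsum fibre_bound norm_one_add_le)

/-- A map whose fibres, with all but `h` symbols fixed, have at most `ρ` elements, has a residue with `ρ` values. -/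
theorem exists_of_fibre {Λ F W : Type} [Fintype Λ] [DecidableEq Λ] [Finite F] [Nonempty F] (dec : (Λ → F) → W)
    (ρ h M : ℕ) (hh : h ≤ Fintype.card Λ)
    (hf : ∀ X : Finset Λ, X.card = h → ∀ (y : Λ → F) (w : W),
      Nat.card {y' : Λ → F // (∀ l, l ∉ X → y' l = y l) ∧ dec y' = w} ≤ ρ)
    (hρ : M * (ρ * Nat.card W) ≤ (M + 1) * Nat.card F ^ h) :
    ∃ H : Hid Λ F W ρ h M, H.dec = dec := by
  classical
  obtain ⟨X0, -, hX0⟩ := Finset.exists_subset_card_eq (s := (univ : Finset Λ)) (n := h)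
    (by rwa [Finset.card_univ])
  have hpos : 0 < ρ := by
    refine lt_of_lt_of_le ?_ (hf X0 hX0 (fun _ => Classical.arbitrary F) (dec fun _ => Classical.arbitrary F))
    refine Nat.card_pos_iff.2 ⟨⟨⟨fun _ => Classical.arbitrary F, fun _ _ => rfl, rfl⟩⟩, inferInstance⟩
  have hemb : ∀ S : Set (Λ → F), Nat.card S ≤ ρ → ∃ f : (Λ → F) → Fin ρ, Set.InjOn f S := by
    intro S hS
    have h1 : Nonempty (S ↪ Fin ρ) := by
      have h2 : Nat.card S ≤ Nat.card (Fin ρ) := by rwa [Nat.card_eq_fintype_card (α := Fin ρ), Fintype.card_fin]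
      exact ⟨(Finite.equivFin S).toEmbedding.trans (Fin.castLEEmb hS)⟩
    obtain ⟨g⟩ := h1
    refine ⟨fun y => if hy : y ∈ S then g ⟨y, hy⟩ else ⟨0, hpos⟩, ?_⟩
    intro y hy y' hy' hyy
    simp only [dif_pos hy, dif_pos hy'] at hyy
    exact congrArg Subtype.val (g.injective hyy)
  let Φ : Finset Λ → (Λ → F) → Set (Λ → F) := fun X y => {y' | (∀ l, l ∉ X → y' l = y l) ∧ dec y' = dec y}
  have hΦ : ∀ X : Finset Λ, X.card = h → ∀ y, Nat.card (Φ X y) ≤ ρ := fun X hX y => hf X hX y (dec y)
  let em : Set (Λ → F) → (Λ → F) → Fin ρ := fun S =>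
    if hS : Nat.card S ≤ ρ then (hemb S hS).choose else fun _ => ⟨0, hpos⟩
  refine ⟨⟨dec, fun X y => em (Φ X y) y, ?_, hρ⟩, rfl⟩
  intro X hX y y' h1 h2 h3
  have h4 : Φ X y = Φ X y' := by
    ext u
    constructor
    · rintro ⟨hu1, hu2⟩
      exact ⟨fun l hl => (hu1 l hl).trans (h1 l hl), hu2.trans h2⟩
    · rintro ⟨hu1, hu2⟩
      exact ⟨fun l hl => (hu1 l hl).trans (h1 l hl).symm, hu2.trans h2.symm⟩
  rw [← h4] at h3
  have h5 : Set.InjOn (em (Φ X y)) (Φ X y) := by
    have h6 := (hemb (Φ X y) (hΦ X hX y)).choose_spec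
    simp only [em, dif_pos (hΦ X hX y)]
    exact h6
  refine h5 ⟨fun _ _ => rfl, rfl⟩ ?_ h3
  rw [h4]
  exact ⟨fun _ _ => rfl, rfl⟩

section

variable {K D : Type} [Field K] [Fintype K] [Fintype D]

/-- The fibres of the word, with all but the bits of `X` fixed. -/
theorem fibre_word (c : ℕ) [Fact c.Prime] [CharP K c] (e : ℕ) (num : D → ℕ)
    (hnum : Function.Injective num) (hlt : ∀ c, num c < Fintype.card D) (hr : 1 ≤ e * Fintype.card D)
    (hrK : e * Fintype.card D ≤ Fintype.card K) (d h : ℕ)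
    (hh : (e * Fintype.card D - 1) * Fintype.card K +
      (Fintype.card K - (e * Fintype.card D - 1)) * (Fintype.card K / c) + d ≤ h)
    (X : Finset (K × K)) (hX : X.card = h) (y : K × K → Bool) (w : D → Fin e → K) :
    (Nat.card {y' : K × K → Bool // (∀ l, l ∉ X → y' l = y l) ∧ bword e num y' = w} : ℝ) *
        (Fintype.card K : ℝ) ^ (e * Fintype.card D) ≤
      2 ^ h * (1 + (Fintype.card K : ℝ) ^ (e * Fintype.card D) * (1 - 1 / (8 * (c : ℝ) ^ 2)) ^ d) := by
  classical
  have hc : c.Prime := Fact.out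
  have hc1 : (1 : ℝ) ≤ c := by exact_mod_cast hc.one_lt.le
  have hcardW : (Fintype.card (D → Fin e → K) : ℝ) = (Fintype.card K : ℝ) ^ (e * Fintype.card D) := by
    rw [Fintype.card_fun, Fintype.card_fun, Fintype.card_fin]
    push_cast
    rw [pow_mul]
  have hκ : (0 : ℝ) ≤ 1 - 1 / (8 * (c : ℝ) ^ 2) := by
    rw [sub_nonneg, div_le_one (by positivity)]
    nlinarith
  have hκ1 : (1 : ℝ) - 1 / (8 * (c : ℝ) ^ 2) ≤ 1 := by
    have : (0 : ℝ) ≤ 1 / (8 * (c : ℝ) ^ 2) := by positivity
    linarith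
  -- the word outside
  let o : D → Fin e → K := ∑ l ∈ Xᶜ, if y l then lv e num l else 0
  have h1 := fibre_bound (ι := X) (W := D → Fin e → K) (fun l => lv e num (l : K × K)) (1 - 1 / (8 * (c : ℝ) ^ 2))
    hκ hκ1 d (fun ψ hψ => ?_) (w - o)
  · rw [Fintype.card_coe, hX, hcardW] at h1
    refine le_trans (mul_le_mul_of_nonneg_right ?_ (by positivity)) h1
    refine Nat.cast_le.2 (Nat.card_le_card_of_injective (fun y' => ⟨fun l => y'.1 (l : K × K), ?_⟩) ?_)
    · obtain ⟨y', hy1, hy2⟩ := y'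
      rw [eq_sub_iff_add_eq]
      refine Eq.trans ?_ hy2
      show (∑ l : X, if y' (l : K × K) then lv e num (l : K × K) else 0) + o = _
      rw [Finset.sum_coe_sort X (fun l => if y' l then lv e num l else 0)]
      have h2 : o = ∑ l ∈ Xᶜ, if y' l then lv e num l else 0 := by
        refine Finset.sum_congr rfl fun l hl => ?_
        rw [hy1 l (Finset.mem_compl.1 hl)]
      rw [h2, Finset.sum_add_sum_compl]
      funext a i
      rw [Finset.sum_apply, Finset.sum_apply, bword]
      refine Finset.sum_congr rfl fun l _ => ?_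
      split_ifs <;> rfl
    · rintro ⟨y1, h11, h12⟩ ⟨y2, h21, h22⟩ hy
      apply Subtype.ext
      funext l
      by_cases hl : l ∈ X
      · exact congrFun (congrArg Subtype.val hy) ⟨l, hl⟩
      · show y1 l = y2 l
        rw [h11 l hl, h21 l hl]
  · have h2 := card_trivial (K := K) c e num hnum hlt hr hrK ψ (by simpa using hψ)
    have h3 : d ≤ (X.filter fun l => ¬ ψ (lv e num l) = 1).card := by
      have h4 := Finset.card_filter_add_card_filter_not (s := X) (fun l => ψ (lv e num l) = 1)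
      have h5 : (X.filter fun l => ψ (lv e num l) = 1).card ≤ (univ.filter fun l : K × K => ψ (lv e num l) = 1).card :=
        Finset.card_le_card (Finset.filter_subset_filter _ (Finset.subset_univ X))
      omega
    have h4 : (X.filter fun l => ¬ ψ (lv e num l) = 1).card =
        (univ.filter fun l : X => ¬ ψ (lv e num (l : K × K)) = 1).card := by
      rw [Finset.card_filter, Finset.card_filter, Finset.sum_coe_sort X (fun l => if ¬ ψ (lv e num l) = 1 then 1 else 0)]
    rw [h4] at h3
    refine h3.trans (Finset.card_le_card fun l hl => ?_)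
    rw [Finset.mem_filter] at hl ⊢
    refine ⟨Finset.mem_univ _, norm_one_add_le hc.ne_zero ?_ hl.2⟩
    rw [← AddChar.map_nsmul_eq_pow]
    have h5 : c • lv e num (l : K × K) = 0 := by
      funext a i
      simp only [Pi.smul_apply, Pi.zero_apply, nsmul_eq_mul]
      rw [CharP.cast_eq_zero, zero_mul]
    rw [h5, AddChar.map_zero_eq_one]

/-- X3: the words of the blocks are nearly hidden. `c` is the characteristic. -/
theorem exists_hid [Nonempty D] (c : ℕ) [Fact c.Prime] [CharP K c]
    (e : ℕ) (he : 1 ≤ e) (num : D → ℕ) (hnum : Function.Injective num) (hlt : ∀ x, num x < Fintype.card D)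
    (hrK : e * Fintype.card D ≤ Fintype.card K) (d h M : ℕ) (hcard : h ≤ Fintype.card K ^ 2)
    (hh : (e * Fintype.card D - 1) * Fintype.card K +
      (Fintype.card K - (e * Fintype.card D - 1)) * (Fintype.card K / c) + d ≤ h)
    (hM : (M : ℝ) * ((Fintype.card K : ℝ) ^ (e * Fintype.card D) * (1 - 1 / (8 * (c : ℝ) ^ 2)) ^ d) ≤ 1) :
    ∃ (ρ : ℕ) (H : Hid (K × K) Bool (D → Fin e → K) ρ h M), H.dec = bword e num := by
  classical
  have hr : 1 ≤ e * Fintype.card D := Nat.mul_pos he Fintype.card_pos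
  have hΛ : h ≤ Fintype.card (K × K) := by rw [Fintype.card_prod, ← pow_two]; exact hcard
  have hW : Nat.card (D → Fin e → K) = Fintype.card K ^ (e * Fintype.card D) := by
    rw [Nat.card_eq_fintype_card, Fintype.card_fun, Fintype.card_fun, Fintype.card_fin, pow_mul]
  have hWpos : 0 < Fintype.card K ^ (e * Fintype.card D) := pow_pos Fintype.card_pos _
  have hB : Nat.card Bool = 2 := by rw [Nat.card_eq_fintype_card, Fintype.card_bool]
  rcases Nat.eq_zero_or_pos M with hM0 | hM0
  · subst hM0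
    refine ⟨Nat.card (K × K → Bool), exists_of_fibre (bword e num) _ h 0 hΛ (fun X _ y w => ?_) ?_⟩
    · exact Nat.card_le_card_of_injective _ Subtype.val_injective
    · rw [zero_mul]
      exact Nat.zero_le _
  · have hMW : 0 < M * Fintype.card K ^ (e * Fintype.card D) := Nat.mul_pos hM0 hWpos
    refine ⟨(M + 1) * 2 ^ h / (M * Fintype.card K ^ (e * Fintype.card D)),
      exists_of_fibre (bword e num) _ h M hΛ (fun X hX y w => ?_) ?_⟩
    · rw [Nat.le_div_iff_mul_le hMW]
      have h1 := fibre_word (K := K) c e num hnum hlt hr hrK d h hh X hX y w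
      have h2 : ((Nat.card {y' : K × K → Bool // (∀ l, l ∉ X → y' l = y l) ∧ bword e num y' = w} *
          (M * Fintype.card K ^ (e * Fintype.card D)) : ℕ) : ℝ) ≤ (((M + 1) * 2 ^ h : ℕ) : ℝ) := by
        push_cast
        have hMr : (0 : ℝ) ≤ M := Nat.cast_nonneg M
        have h3 := mul_le_mul_of_nonneg_left h1 hMr
        have h4 : (0 : ℝ) ≤ 2 ^ h := by positivity
        nlinarith [mul_le_mul_of_nonneg_left hM h4]
      exact_mod_cast h2
    · rw [hW, hB]
      calc M * ((M + 1) * 2 ^ h / (M * Fintype.card K ^ (e * Fintype.card D)) * Fintype.card K ^ (e * Fintype.card D)) =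
          (M + 1) * 2 ^ h / (M * Fintype.card K ^ (e * Fintype.card D)) * (M * Fintype.card K ^ (e * Fintype.card D)) := by
            ring
        _ ≤ (M + 1) * 2 ^ h := Nat.div_mul_le_self _ _

end

end Pool.Agent.Helper18.NC
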