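import Mathlib

/-!
# The places at which a character of the words is trivial (project NB+, X3)
-/

set_option autoImplicit false

namespace Pool.Agent.Helper18.NC

open Finset

section char

variable {K : Type} [Field K] [Fintype K]

/-- A nontrivial character of a field of characteristic `c` is trivial on at most a part `1 / c` of the elements. -/
theorem card_char_ker (c : ℕ) [Fact c.Prime] [CharP K c] (χ : AddChar K ℂ) (hχ : ∃ z, χ z ≠ 1) :
    Nat.card {z : K // χ z = 1} ≤ Fintype.card K / c := by
  classical
  have hc : c.Prime := Fact.out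
  obtain ⟨z0, hz0⟩ := hχ
  have hpow : (χ z0) ^ c = 1 := by
    rw [← AddChar.map_nsmul_eq_pow]
    rw [nsmul_eq_mul, CharP.cast_eq_zero, zero_mul, AddChar.map_zero_eq_one]
  have hprim : IsPrimitiveRoot (χ z0) c := by
    have h1 : orderOf (χ z0) = c := orderOf_eq_prime hpow hz0
    rw [← h1]
    exact IsPrimitiveRoot.orderOf _
  rw [Nat.le_div_iff_mul_le hc.pos]
  have h2 : Nat.card ({z : K // χ z = 1} × Fin c) ≤ Nat.card K := by
    refine Nat.card_le_card_of_injective (fun p => (p.2 : ℕ) • z0 + p.1.1) ?_
    rintro ⟨⟨z, hz⟩, j⟩ ⟨⟨z', hz'⟩, j'⟩ h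
    simp only at h
    have h3 : χ ((j : ℕ) • z0 + z) = (χ z0) ^ (j : ℕ) := by
      rw [AddChar.map_add_eq_mul, AddChar.map_nsmul_eq_pow, hz, mul_one]
    have h4 : χ ((j' : ℕ) • z0 + z') = (χ z0) ^ (j' : ℕ) := by
      rw [AddChar.map_add_eq_mul, AddChar.map_nsmul_eq_pow, hz', mul_one]
    have h5 : (χ z0) ^ (j : ℕ) = (χ z0) ^ (j' : ℕ) := by rw [← h3, ← h4, h]
    have h6 : (j : ℕ) = j' := hprim.pow_inj j.2 j'.2 h5
    have h7 : j = j' := Fin.ext h6
    subst h7
    have h8 : z = z' := add_left_cancel h
    subst h8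
    rfl
  rw [Nat.card_prod, Nat.card_eq_fintype_card (α := Fin c), Fintype.card_fin, Nat.card_eq_fintype_card (α := K)] at h2
  exact h2

end char

section word

variable {K D : Type} [Field K]

/-- The contribution of the place `(x, z)` to the word. -/
def lv (e : ℕ) (num : D → ℕ) (p : K × K) : D → Fin e → K := fun c i => p.2 * p.1 ^ (e * num c + i.val)

theorem lv_add (e : ℕ) (num : D → ℕ) (x z z' : K) : lv e num (x, z + z') = lv e num (x, z) + lv e num (x, z') := by
  funext c i
  simp only [lv, Pi.add_apply]
  ring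

theorem lv_zero (e : ℕ) (num : D → ℕ) (x : K) : lv e num (x, (0 : K)) = 0 := by
  funext c i
  simp [lv]

/-- The character `ψ` on the line number `x`. -/
noncomputable def line (e : ℕ) (num : D → ℕ) (ψ : AddChar (D → Fin e → K) ℂ) (x : K) : AddChar K ℂ where
  toFun z := ψ (lv e num (x, z))
  map_zero_eq_one' := by rw [lv_zero, AddChar.map_zero_eq_one]
  map_add_eq_mul' z z' := by rw [lv_add, AddChar.map_add_eq_mul]

theorem line_apply (e : ℕ) (num : D → ℕ) (ψ : AddChar (D → Fin e → K) ℂ) (x z : K) :
    line e num ψ x z = ψ (lv e num (x, z)) := rfl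

/-- If `ψ` is trivial on `e |D|` lines, then it is trivial. -/
theorem eq_zero_of_line [Fintype D] (e : ℕ) (num : D → ℕ) (hnum : Function.Injective num)
    (hlt : ∀ c, num c < Fintype.card D) (ψ : AddChar (D → Fin e → K) ℂ) (x : Fin (e * Fintype.card D) → K)
    (hx : Function.Injective x) (h : ∀ j z, line e num ψ (x j) z = 1) : ψ = 0 := by
  classical
  ext w
  rw [AddChar.zero_apply]
  let v : Fin (e * Fintype.card D) → K := fun j =>
    if hj : ∃ q : D × Fin e, e * num q.1 + (q.2 : ℕ) = j then w hj.choose.1 hj.choose.2 else 0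
  have hinj : ∀ q q' : D × Fin e, e * num q.1 + (q.2 : ℕ) = e * num q'.1 + (q'.2 : ℕ) → q = q' := by
    rintro ⟨c, i⟩ ⟨c', i'⟩ h
    simp only at h
    have h1 : (e * num c + (i : ℕ)) / e = num c := by
      rw [Nat.mul_add_div (by omega), Nat.div_eq_of_lt i.2, add_zero]
    have h2 : (e * num c' + (i' : ℕ)) / e = num c' := by
      rw [Nat.mul_add_div (by omega), Nat.div_eq_of_lt i'.2, add_zero]
    have h3 : num c = num c' := by rw [← h1, ← h2, h]
    have h4 : c = c' := hnum h3
    subst h4
    have h5 : (i : ℕ) = i' := by omega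
    rw [Fin.ext h5]
  have hdet : IsUnit (Matrix.vandermonde x).det := by
    rw [isUnit_iff_ne_zero, Matrix.det_vandermonde_ne_zero_iff]
    exact hx
  have hu : IsUnit (Matrix.vandermonde x) := (Matrix.isUnit_iff_isUnit_det _).mpr hdet
  obtain ⟨a, ha⟩ := (Matrix.vecMul_surjective_iff_isUnit.mpr hu) v
  have h1 : w = ∑ j, lv e num (x j, a j) := by
    funext c i
    have hb : e * num c + (i : ℕ) < e * Fintype.card D := by
      have h1 := hlt c
      have h2 := i.2
      calc e * num c + (i : ℕ) < e * num c + e := by omega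
        _ = e * (num c + 1) := by ring
        _ ≤ e * Fintype.card D := Nat.mul_le_mul_left e h1
    have hj : ∃ q : D × Fin e, e * num q.1 + (q.2 : ℕ) = (⟨e * num c + (i : ℕ), hb⟩ : Fin (e * Fintype.card D)) :=
      ⟨(c, i), rfl⟩
    have h2 : v ⟨e * num c + (i : ℕ), hb⟩ = w c i := by
      simp only [v]
      rw [dif_pos hj]
      have h3 : hj.choose = (c, i) := hinj _ _ hj.choose_spec
      rw [h3]
    rw [← h2, ← ha, Finset.sum_apply, Finset.sum_apply]
    simp only [Matrix.vecMul, dotProduct, Matrix.vandermonde_apply, lv]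
  have h2 : ∀ s : Finset (Fin (e * Fintype.card D)), ψ (∑ j ∈ s, lv e num (x j, a j)) = 1 := by
    intro s
    induction s using Finset.induction_on with
    | empty => rw [sum_empty, AddChar.map_zero_eq_one]
    | insert b s hb ih =>
      rw [sum_insert hb, AddChar.map_add_eq_mul, ih, mul_one, ← line_apply, h]
  rw [h1]
  exact h2 univ

/-- The number of the places at which a nontrivial character is trivial. -/
theorem card_trivial [Fintype K] [Fintype D] (c : ℕ) [Fact c.Prime] [CharP K c] (e : ℕ) (num : D → ℕ)
    (hnum : Function.Injective num) (hlt : ∀ c, num c < Fintype.card D) (hr : 1 ≤ e * Fintype.card D)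
    (hrK : e * Fintype.card D ≤ Fintype.card K) (ψ : AddChar (D → Fin e → K) ℂ) (hψ : ψ ≠ 0)
    [DecidablePred fun p : K × K => ψ (lv e num p) = 1] :
    (univ.filter fun p : K × K => ψ (lv e num p) = 1).card ≤ (e * Fintype.card D - 1) * Fintype.card K +
      (Fintype.card K - (e * Fintype.card D - 1)) * (Fintype.card K / c) := by
  classical
  set r := e * Fintype.card D with hrdef
  set Z : Finset K := univ.filter (fun x => ∀ z, line e num ψ x z = 1) with hZ
  have hZc : Z.card ≤ r - 1 := by
    by_contra hlt'
    have h2 : r ≤ Z.card := by omega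
    obtain ⟨Z', hZ', hZc'⟩ := Finset.exists_subset_card_eq h2
    have E := (Finset.equivFinOfCardEq hZc').symm
    refine hψ (eq_zero_of_line e num hnum hlt ψ (fun j => (E j : K))
      (fun i j hij => E.injective (Subtype.ext hij)) fun j => ?_)
    exact (Finset.mem_filter.mp (hZ' (E j).2)).2
  have h3 : (univ.filter fun p : K × K => ψ (lv e num p) = 1).card ≤
      ∑ x : K, if (∀ z, line e num ψ x z = 1) then Fintype.card K else Fintype.card K / c := by
    have h5 : (univ.filter (fun p : K × K => ψ (lv e num p) = 1)).card =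
        ∑ x : K, (univ.filter (fun z : K => line e num ψ x z = 1)).card := by
      rw [Finset.card_filter, Fintype.sum_prod_type]
      refine Finset.sum_congr rfl fun x _ => ?_
      rw [Finset.card_filter]
      exact Finset.sum_congr rfl fun z _ => if_congr Iff.rfl rfl rfl
    rw [h5]
    refine Finset.sum_le_sum fun x _ => ?_
    split_ifs with h
    · exact (Finset.card_filter_le _ _).trans_eq Finset.card_univ
    · push Not at h
      have h6 := card_char_ker c (line e num ψ x) h
      rwa [Nat.card_eq_fintype_card, Fintype.card_subtype] at h6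
  have h8 : ∑ x : K, (if (∀ z, line e num ψ x z = 1) then Fintype.card K else Fintype.card K / c) =
      Z.card * Fintype.card K + (Fintype.card K - Z.card) * (Fintype.card K / c) := by
    rw [Finset.sum_ite, Finset.sum_const, Finset.sum_const, smul_eq_mul, smul_eq_mul]
    congr 2
    have h9 := Finset.card_filter_add_card_filter_not (s := (univ : Finset K)) (fun x => ∀ z, line e num ψ x z = 1)
    rw [Finset.card_univ] at h9
    change Z.card + _ = _ at h9
    omega
  have h10 : Fintype.card K / c ≤ Fintype.card K := Nat.div_le_self _ _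
  obtain ⟨u, hu⟩ : ∃ u, r - 1 = Z.card + u := ⟨r - 1 - Z.card, by omega⟩
  have h11 : Z.card * Fintype.card K + (Fintype.card K - Z.card) * (Fintype.card K / c) ≤
      (r - 1) * Fintype.card K + (Fintype.card K - (r - 1)) * (Fintype.card K / c) := by
    obtain ⟨w, hw⟩ : ∃ w, Fintype.card K = r - 1 + w := ⟨Fintype.card K - (r - 1), by omega⟩
    have e1 : Fintype.card K - Z.card = u + w := by omega
    have e2 : Fintype.card K - (r - 1) = w := by omega
    rw [e1, e2, hu, add_mul, add_mul]
    nlinarith [Nat.mul_le_mul_left u h10]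
  omega

end word

end Pool.Agent.Helper18.NC
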